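import Pool.Agent.helper21.KBR3.Chart

/-!
# Second order jet of the inverse exponential map along the boundary sphere (module A4)
-/

noncomputable section

namespace KBR

open Set MeasureTheory Filter Topology
open scoped ContDiff RealInnerProductSpace

variable {n : ℕ}

namespace EJ

/-- second order Taylor expansion from the right -/
lemma taylor2 {V : Type*} [NormedAddCommGroup V] [NormedSpace ℝ V] {f f' : ℝ → V} {r : V}
    {ε : ℝ} (hε : 0 < ε)
    (hf : ∀ t ∈ Icc 0 ε, HasDerivWithinAt f (f' t) (Icc 0 ε) t)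
    (hf' : HasDerivWithinAt f' r (Icc 0 ε) 0) :
    Tendsto (fun s : ℝ => (2 / s ^ 2) • (f s - f 0 - s • f' 0)) (𝓝[>] 0) (𝓝 r) := by
  rw [Metric.tendsto_nhds]
  intro η hη
  have h1 := (hasDerivWithinAt_iff_isLittleO.mp hf').def (show (0 : ℝ) < η / 4 by positivity)
  rw [eventually_nhdsWithin_iff, Metric.eventually_nhds_iff] at h1
  obtain ⟨δ, hδ, h1⟩ := h1
  have h2 : ∀ᶠ s in 𝓝[>] (0 : ℝ), s < min δ ε :=
    (eventually_lt_nhds (lt_min hδ hε)).filter_mono nhdsWithin_le_nhds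
  filter_upwards [self_mem_nhdsWithin, h2] with s hs hs2
  have hs0 : 0 < s := hs
  have hsδ : s < δ := hs2.trans_le (min_le_left _ _)
  have hsε : s < ε := hs2.trans_le (min_le_right _ _)
  set h : ℝ → V := fun t => f t - t • f' 0 - (t ^ 2 / 2) • r with hh
  have hd : ∀ t ∈ Icc 0 s, HasDerivWithinAt h (f' t - f' 0 - t • r) (Icc 0 s) t := by
    intro t ht
    have h3 := (hf t ⟨ht.1, ht.2.trans hsε.le⟩).mono (Icc_subset_Icc_right hsε.le)
    have h4 : HasDerivWithinAt (fun t : ℝ => t • f' 0) (f' 0) (Icc 0 s) t := by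
      simpa using (hasDerivWithinAt_id t (Icc 0 s)).smul_const (f' 0)
    have h5 : HasDerivWithinAt (fun t : ℝ => (t ^ 2 / 2) • r) (t • r) (Icc 0 s) t := by
      have h6 : HasDerivWithinAt (fun t : ℝ => t ^ 2 / 2) t (Icc 0 s) t := by
        have h7 := ((hasDerivWithinAt_id t (Icc 0 s)).pow 2).div_const 2
        refine h7.congr_deriv ?_
        simp
      exact h6.smul_const r
    exact (h3.sub h4).sub h5
  have hb : ∀ t ∈ Icc 0 s, ‖f' t - f' 0 - t • r‖ ≤ η / 4 * s := by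
    intro t ht
    have h3 := h1 (y := t) (by
      rw [Real.dist_eq, sub_zero, abs_of_nonneg ht.1]
      exact ht.2.trans_lt hsδ) ⟨ht.1, ht.2.trans hsε.le⟩
    simp only [sub_zero, Real.norm_eq_abs, abs_of_nonneg ht.1] at h3
    refine h3.trans ?_
    exact mul_le_mul_of_nonneg_left ht.2 (by positivity)
  have h3 := (convex_Icc (0 : ℝ) s).norm_image_sub_le_of_norm_hasDerivWithin_le hd hb
    (left_mem_Icc.mpr hs0.le) (right_mem_Icc.mpr hs0.le)
  rw [sub_zero, Real.norm_of_nonneg hs0.le] at h3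
  have h4 : (2 / s ^ 2) • (f s - f 0 - s • f' 0) - r = (2 / s ^ 2) • (h s - h 0) := by
    have h5 : r = (2 / s ^ 2) • ((s ^ 2 / 2) • r) := by
      rw [smul_smul]
      have : 2 / s ^ 2 * (s ^ 2 / 2) = 1 := by field_simp
      rw [this, one_smul]
    conv_lhs => rw [h5]
    rw [← smul_sub]
    congr 1
    simp only [hh]
    simp
    abel
  rw [dist_eq_norm, h4, norm_smul]
  have h6 : ‖(2 / s ^ 2 : ℝ)‖ = 2 / s ^ 2 := Real.norm_of_nonneg (by positivity)
  rw [h6]
  calc 2 / s ^ 2 * ‖h s - h 0‖ ≤ 2 / s ^ 2 * (η / 4 * s * s) := by gcongr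
    _ = η / 2 := by field_simp; ring
    _ < η := by linarith

variable {G : E n → E n →L[ℝ] E n} {a : E n} {e L : E n → E n}

/-- second derivative of `L` along a curve -/
lemma chain2 (hL : ContDiffOn ℝ ∞ L (M n)) (ha : a ∈ M n) {ε : ℝ} {g g' : ℝ → E n} {q : E n}
    (hε : 0 < ε) (hg : ∀ t ∈ Icc 0 ε, g t ∈ M n) (hg0 : g 0 = a)
    (hd : ∀ t ∈ Icc 0 ε, HasDerivWithinAt g (g' t) (Icc 0 ε) t)
    (hd' : HasDerivWithinAt g' q (Icc 0 ε) 0) :
    (∀ t ∈ Icc 0 ε, HasDerivWithinAt (fun t => L (g t))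
      (fderivWithin ℝ L (M n) (g t) (g' t)) (Icc 0 ε) t) ∧
    HasDerivWithinAt (fun t => fderivWithin ℝ L (M n) (g t) (g' t))
      (fderivWithin ℝ (fderivWithin ℝ L (M n)) (M n) a (g' 0) (g' 0) +
        fderivWithin ℝ L (M n) a q) (Icc 0 ε) 0 := by
  have hL1 : ContDiffOn ℝ 1 (fderivWithin ℝ L (M n)) (M n) :=
    hL.fderivWithin uniqueDiffOn_M (by norm_cast)
  refine ⟨fun t ht => ?_, ?_⟩
  · have h1 : HasFDerivWithinAt L (fderivWithin ℝ L (M n) (g t)) (M n) (g t) :=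
      ((hL.differentiableOn (by simp)) _ (hg t ht)).hasFDerivWithinAt
    exact h1.comp_hasDerivWithinAt t (hd t ht) hg
  · have h0 : (0 : ℝ) ∈ Icc 0 ε := ⟨le_refl _, hε.le⟩
    have h1 : HasFDerivWithinAt (fderivWithin ℝ L (M n))
        (fderivWithin ℝ (fderivWithin ℝ L (M n)) (M n) (g 0)) (M n) (g 0) :=
      ((hL1.differentiableOn (by simp)) _ (hg 0 h0)).hasFDerivWithinAt
    have h2 := h1.comp_hasDerivWithinAt (0 : ℝ) (hd 0 h0) hg
    have h3 := h2.clm_apply hd'
    simp only [Function.comp_apply, hg0] at h3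
    exact h3

/-- geodesics with inward initial velocity exist for a short time -/
lemma inward (hG : IsMetric G) (ha : a ∈ bM n) {u : E n} (hu : ⟪a, u⟫ < 0) :
    ∃ ε : ℝ, 0 < ε ∧ ∃ c v, IsGeod G ε c v ∧ c 0 = a ∧ v 0 = u := by
  have haM : a ∈ M n := bM_sub_M ha
  have han : ‖a‖ = 1 := by simpa [bM] using ha
  obtain ⟨φ, hc, h0, -, -, hgeo⟩ := geodesic_flow G hG
  have hgeo' : GeoProp G φ := hgeo
  have hu0 : u ≠ 0 := by
    rintro rfl
    simp at hu
  have hpos := hG.pos a haM u hu0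
  set t : ℝ := (Real.sqrt ⟪G a u, u⟫)⁻¹ with ht
  have hsq : 0 < Real.sqrt ⟪G a u, u⟫ := Real.sqrt_pos.mpr hpos
  have ht0 : 0 < t := inv_pos.mpr hsq
  set z : E n × E n := (a, t • G a u) with hz
  have hvl : vl G z = t • u := by
    show (G a).inverse (t • G a u) = t • u
    rw [map_smul, hG.inv_apply haM]
  have hdsq : dsq G z ≤ 1 := by
    show ⟪(G a).inverse (t • G a u), t • G a u⟫ ≤ 1
    rw [map_smul, hG.inv_apply haM, inner_smul_left, inner_smul_right, real_inner_comm]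
    simp only [conj_trivial]
    have h1 : t * (t * ⟪G a u, u⟫) = 1 := by
      have h2 : Real.sqrt ⟪G a u, u⟫ * Real.sqrt ⟪G a u, u⟫ = ⟪G a u, u⟫ :=
        Real.mul_self_sqrt hpos.le
      have h3 : t * Real.sqrt ⟪G a u, u⟫ = 1 := inv_mul_cancel₀ hsq.ne'
      calc t * (t * ⟪G a u, u⟫) = t * (t * (Real.sqrt ⟪G a u, u⟫ * Real.sqrt ⟪G a u, u⟫)) := by
            rw [h2]
        _ = (t * Real.sqrt ⟪G a u, u⟫) * (t * Real.sqrt ⟪G a u, u⟫) := by ring
        _ = 1 := by rw [h3, one_mul]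
    exact h1.le
  have hder : HasDerivAt (fun r => (φ r z).1) (t • u) 0 := by
    have h1 := (hgeo z haM hdsq 0 (by
      intro r hr
      rw [uIcc_self] at hr
      rw [hr, h0]
      exact haM)).2.1
    rw [h0] at h1
    have h2 : (G z.1).inverse z.2 = t • u := hvl
    rwa [h2] at h1
  -- the norm decreases
  have hnd : HasDerivAt (fun r => ⟪(φ r z).1, (φ r z).1⟫) (2 * t * ⟪a, u⟫) 0 := by
    have h1 := hder.inner ℝ hder
    refine h1.congr_deriv ?_
    rw [h0]
    show ⟪a, t • u⟫ + ⟪t • u, a⟫ = _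
    rw [inner_smul_right, inner_smul_left, real_inner_comm a u]
    simp only [conj_trivial]
    ring
  have hneg : 2 * t * ⟪a, u⟫ < 0 := by
    have : 0 < 2 * t := by positivity
    exact mul_neg_of_pos_of_neg this hu
  have hev : ∀ᶠ r in 𝓝[>] (0 : ℝ), ⟪(φ r z).1, (φ r z).1⟫ < 1 := by
    have h1 := (hasDerivAt_iff_tendsto_slope.mp hnd).mono_left
      (nhdsWithin_mono (0 : ℝ) (fun r (hr : r ∈ Ioi (0 : ℝ)) => ne_of_gt hr))
    have h2 := h1.eventually (eventually_lt_nhds hneg)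
    filter_upwards [h2, self_mem_nhdsWithin] with r hr hr0
    have hr0' : 0 < r := hr0
    rw [slope_def_field, sub_zero, h0] at hr
    have h3 : ⟪(φ r z).1, (φ r z).1⟫ - ⟪z.1, z.1⟫ < 0 := by
      by_contra hcon
      push Not at hcon
      have := div_nonneg hcon hr0'.le
      linarith
    have h4 : ⟪z.1, z.1⟫ = (1 : ℝ) := by
      show ⟪a, a⟫ = (1 : ℝ)
      rw [real_inner_self_eq_norm_sq, han]
      norm_num
    linarith
  rw [eventually_nhdsWithin_iff, Metric.eventually_nhds_iff] at hev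
  obtain ⟨δ, hδ, hev⟩ := hev
  have hM : ∀ r ∈ Icc (0 : ℝ) (δ / 2), (φ r z).1 ∈ M n := by
    intro r hr
    rcases eq_or_lt_of_le hr.1 with h | h
    · rw [← h, h0]; exact haM
    · have h1 := hev (y := r) (by
        rw [Real.dist_eq, sub_zero, abs_of_pos h]
        linarith [hr.2]) h
      rw [real_inner_self_eq_norm_sq] at h1
      rw [M, mem_closedBall_zero_iff]
      nlinarith [norm_nonneg (φ r z).1]
  have hg := orbit_geod (z := z) hG hgeo' haM hdsq (a := 0) (b := δ / 2) (by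
    intro r hr r' hr'
    rw [uIcc_of_le hr.1] at hr'
    exact hM r' ⟨hr'.1, hr'.2.trans hr.2⟩)
  have hg2 := hg.rescale (a := t⁻¹) (T' := t * (δ / 2)) (by positivity) (by
    rw [← mul_assoc, inv_mul_cancel₀ ht0.ne', one_mul, sub_zero])
  refine ⟨t * (δ / 2), by positivity, _, _, hg2, ?_, ?_⟩
  · simp [h0, hz]
  · simp only [mul_zero, add_zero, h0]
    rw [hvl, smul_smul, inv_mul_cancel₀ ht0.ne', one_smul]

/-- acceleration of a geodesic at time `0` -/
lemma accel (hG : IsMetric G) {ε : ℝ} (hε : 0 < ε) {c v : ℝ → E n} (h : IsGeod G ε c v)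
    (h0 : c 0 = a) :
    HasDerivWithinAt v (-(chr G a (v 0) (v 0))) (Icc 0 ε) 0 := by
  have ht : (0 : ℝ) ∈ Icc 0 ε := ⟨le_refl _, hε.le⟩
  obtain ⟨q, hqw, hq⟩ := h.mom_deriv ht
  have hx := h.mem 0 ht
  have hK : HasFDerivAt (fun y => (G y).inverse) (fderiv ℝ (fun y => (G y).inverse) (c 0))
      (c 0) := ((hG.contDiffAt_inv hx).differentiableAt (by simp)).hasFDerivAt
  have h1 : HasDerivWithinAt (fun s => (G (c s)).inverse)
      (fderiv ℝ (fun y => (G y).inverse) (c 0) (v 0)) (Icc 0 ε) 0 :=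
    hK.comp_hasDerivWithinAt 0 (h.vel 0 ht)
  have h2 := h1.clm_apply hq
  have h3 := h2.congr (fun s hs => h.vel_eq hG hs) (h.vel_eq hG ht)
  refine h3.congr_deriv ?_
  rw [h0] at hx
  rw [h0] at hqw
  rw [hG.fderiv_inv (by rw [h0]; exact hx), h0]
  -- compare after applying `G a`
  have hkey : G a (-((G a).inverse.comp ((fderiv ℝ G a (v 0)).comp (G a).inverse)) (G a (v 0)) +
      (G a).inverse q) = G a (-(chr G a (v 0) (v 0))) := by
    refine ext_inner_right ℝ fun w => ?_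
    rw [map_add, hG.apply_inv hx]
    rw [map_neg (G a) (chr G a (v 0) (v 0)), inner_neg_left, chr_inner hG hx, inner_add_left,
      hqw]
    simp only [ContinuousLinearMap.comp_apply, hG.inv_apply hx, map_neg,
      hG.apply_inv hx, inner_neg_left]
    ring
  have h4 := congrArg (fun y => (G a).inverse y) hkey
  simp only [hG.inv_apply hx] at h4
  simpa using h4

lemma L_zero (ha : a ∈ M n)
    (h1 : ∀ c v, IsGeod G 1 c v → c 0 = a → c 1 = e (v 0))
    (h3 : ∀ w ∈ expDom G a, L (e w) = w) : L a = 0 := by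
  have hg : IsGeod G 1 (fun _ => a) (fun _ => 0) := by
    refine ⟨fun _ _ => ha, fun t _ => hasDerivWithinAt_const _ _ _, fun t _ w => ?_⟩
    simpa using hasDerivWithinAt_const t (Icc 0 1) (0 : ℝ)
  have h4 := h1 _ _ hg rfl
  have h5 : (0 : E n) ∈ expDom G a := ⟨_, _, hg, rfl, rfl⟩
  rw [h4]
  exact h3 0 h5

/-- first and second order information from inward geodesics -/
lemma inward_jet (hG : IsMetric G) (ha : a ∈ bM n)
    (h1 : ∀ c v, IsGeod G 1 c v → c 0 = a → c 1 = e (v 0))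
    (hL : ContDiffOn ℝ ∞ L (M n))
    (h3 : ∀ w ∈ expDom G a, L (e w) = w) {u : E n} (hu : ⟪a, u⟫ < 0) :
    fderivWithin ℝ L (M n) a u = u ∧
      fderivWithin ℝ (fderivWithin ℝ L (M n)) (M n) a u u =
        fderivWithin ℝ L (M n) a (chr G a u u) := by
  obtain ⟨ε, hε, c, v, hg, hc0, hv0⟩ := inward hG ha hu
  have hmem0 : (0 : ℝ) ∈ Icc 0 ε := ⟨le_refl _, hε.le⟩
  have hud : UniqueDiffWithinAt ℝ (Icc 0 ε) 0 := uniqueDiffOn_Icc hε 0 hmem0
  have hLc : ∀ s ∈ Icc 0 ε, L (c s) = s • u := by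
    intro s hs
    have h4 := hg.rescale (a := s) (T' := 1) hs.1 (by simpa using hs.2)
    have h5 := h1 _ _ h4 (by simpa using hc0)
    simp only [mul_one, mul_zero, hv0] at h5
    rw [h5]
    exact h3 _ ⟨_, _, h4, by simpa using hc0, by simp [hv0]⟩
  obtain ⟨hd1, hd2⟩ := chain2 hL (bM_sub_M ha) hε hg.mem hc0 hg.vel (accel hG hε hg hc0)
  rw [hv0] at hd2
  have hder : ∀ t ∈ Icc 0 ε, fderivWithin ℝ L (M n) (c t) (v t) = u := by
    intro t ht
    have h4 : HasDerivWithinAt (fun t => L (c t)) u (Icc 0 ε) t := by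
      have h5 : HasDerivWithinAt (fun t : ℝ => t • u) u (Icc 0 ε) t := by
        simpa using (hasDerivWithinAt_id t (Icc 0 ε)).smul_const u
      exact h5.congr hLc (hLc t ht)
    exact (uniqueDiffOn_Icc hε t ht).eq_deriv _ (hd1 t ht) h4
  refine ⟨?_, ?_⟩
  · have := hder 0 hmem0
    rwa [hc0, hv0] at this
  · have h4 : HasDerivWithinAt (fun t => fderivWithin ℝ L (M n) (c t) (v t)) 0 (Icc 0 ε) 0 :=
      (hasDerivWithinAt_const (0 : ℝ) (Icc 0 ε) u).congr hder (hder 0 hmem0)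
    have h5 := hud.eq_deriv _ hd2 h4
    rw [map_neg, ← sub_eq_add_neg, sub_eq_zero] at h5
    exact h5

lemma deriv_id (hG : IsMetric G) (ha : a ∈ bM n)
    (h1 : ∀ c v, IsGeod G 1 c v → c 0 = a → c 1 = e (v 0))
    (hL : ContDiffOn ℝ ∞ L (M n))
    (h3 : ∀ w ∈ expDom G a, L (e w) = w) (w : E n) :
    fderivWithin ℝ L (M n) a w = w := by
  have han : ‖a‖ = 1 := by simpa [bM] using ha
  have haa : ⟪a, a⟫ = (1 : ℝ) := by rw [real_inner_self_eq_norm_sq, han]; norm_num
  set t : ℝ := |⟪a, w⟫| + 1 with ht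
  have e1 := (inward_jet hG ha h1 hL h3 (u := -(t • a)) (by
    rw [inner_neg_right, inner_smul_right, haa]
    have := abs_nonneg ⟪a, w⟫
    linarith)).1
  have e2 := (inward_jet hG ha h1 hL h3 (u := w - t • a) (by
    rw [inner_sub_right, inner_smul_right, haa]
    have := le_abs_self ⟪a, w⟫
    linarith)).1
  rw [map_sub] at e2
  rw [map_neg] at e1
  have e3 : fderivWithin ℝ L (M n) a (t • a) = t • a := neg_injective e1
  rw [e3] at e2
  exact sub_left_injective e2

lemma chr_continuous (G : E n → E n →L[ℝ] E n) (a : E n) : Continuous fun u => chr G a u u := by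
  have h1 : Continuous fun u => chr G a u := by
    unfold chr
    have h2 : Continuous fun u : E n => ContinuousLinearMap.adjoint ((fderiv ℝ G a).flip u) :=
      (ContinuousLinearMap.adjoint (𝕜 := ℝ) (E := E n) (F := E n)).continuous.comp
        ((fderiv ℝ G a).flip.continuous)
    have h3 : Continuous fun u : E n => (1 / 2 : ℝ) • (fderiv ℝ G a u + (fderiv ℝ G a).flip u -
        ContinuousLinearMap.adjoint ((fderiv ℝ G a).flip u)) := by
      have h4 := (((fderiv ℝ G a).continuous.add (fderiv ℝ G a).flip.continuous).sub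
        h2).const_smul (1 / 2 : ℝ)
      exact h4
    exact continuous_const.clm_comp h3
  exact h1.clm_apply continuous_id

lemma second_deriv (hG : IsMetric G) (ha : a ∈ bM n)
    (h1 : ∀ c v, IsGeod G 1 c v → c 0 = a → c 1 = e (v 0))
    (hL : ContDiffOn ℝ ∞ L (M n))
    (h3 : ∀ w ∈ expDom G a, L (e w) = w) {w : E n} (hw : ⟪a, w⟫ = 0) :
    fderivWithin ℝ (fderivWithin ℝ L (M n)) (M n) a w w = chr G a w w := by
  have han : ‖a‖ = 1 := by simpa [bM] using ha
  have haa : ⟪a, a⟫ = (1 : ℝ) := by rw [real_inner_self_eq_norm_sq, han]; norm_num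
  have hc : Continuous fun t : ℝ => w - t • a := by fun_prop
  have c1 : Continuous fun t : ℝ =>
      fderivWithin ℝ (fderivWithin ℝ L (M n)) (M n) a (w - t • a) (w - t • a) :=
    ((fderivWithin ℝ (fderivWithin ℝ L (M n)) (M n) a).continuous.comp hc).clm_apply hc
  have c2 : Continuous fun t : ℝ => chr G a (w - t • a) (w - t • a) :=
    (chr_continuous G a).comp hc
  have t1 := (c1.tendsto 0).mono_left (nhdsWithin_le_nhds (s := Ioi (0 : ℝ)))
  have t2 := (c2.tendsto 0).mono_left (nhdsWithin_le_nhds (s := Ioi (0 : ℝ)))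
  simp only [zero_smul, sub_zero] at t1 t2
  have hev : (fun t : ℝ =>
      fderivWithin ℝ (fderivWithin ℝ L (M n)) (M n) a (w - t • a) (w - t • a)) =ᶠ[𝓝[>] 0]
      fun t : ℝ => chr G a (w - t • a) (w - t • a) := by
    filter_upwards [self_mem_nhdsWithin] with t ht
    have ht' : 0 < t := ht
    rw [(inward_jet hG ha h1 hL h3 (u := w - t • a) (by
      rw [inner_sub_right, inner_smul_right, haa, hw]
      linarith)).2, deriv_id hG ha h1 hL h3]
  exact tendsto_nhds_unique (t1.congr' hev) t2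

end EJ

/-- MODULE A4 (`exp_jet`): second order jet of `exp_a⁻¹` along the sphere. -/
theorem exp_jet {G : E n → E n →L[ℝ] E n} (hG : IsMetric G) {a : E n} (ha : a ∈ bM n)
    {e L : E n → E n}
    (h1 : ∀ c v, IsGeod G 1 c v → c 0 = a → c 1 = e (v 0))
    (he : ContDiffOn ℝ ∞ e (expDom G a)) (hL : ContDiffOn ℝ ∞ L (M n))
    (h2 : ∀ y ∈ M n, L y ∈ expDom G a ∧ e (L y) = y) (h3 : ∀ w ∈ expDom G a, L (e w) = w)
    {w : E n} (hw : ‖w‖ = 1) (haw : ⟪a, w⟫ = 0) :
    Tendsto (fun s : ℝ => (2 / s ^ 2) • (L (BQ.gc a w s) - s • w)) (𝓝[>] 0)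
      (𝓝 (chr G a w w - a)) := by
  have haM : a ∈ M n := bM_sub_M ha
  have han : ‖a‖ = 1 := by simpa [bM] using ha
  set g' : ℝ → E n := fun s => -Real.sin s • a + Real.cos s • w with hg'
  have hd : ∀ t : ℝ, HasDerivAt (BQ.gc a w) (g' t) t := fun t =>
    ((Real.hasDerivAt_cos t).smul_const a).add ((Real.hasDerivAt_sin t).smul_const w)
  have hd' : HasDerivAt g' (-a) 0 := by
    have h4 := ((Real.hasDerivAt_sin 0).neg.smul_const a).add
      ((Real.hasDerivAt_cos 0).smul_const w)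
    refine h4.congr_deriv ?_
    simp
  have hg'0 : g' 0 = w := by simp [hg']
  have hgM : ∀ t ∈ Icc (0 : ℝ) 1, BQ.gc a w t ∈ M n := by
    intro t _
    rw [M, mem_closedBall_zero_iff, BQ.gc_norm han hw haw]
  obtain ⟨k1, k2⟩ := EJ.chain2 (L := L) hL haM (ε := 1) (g := BQ.gc a w) (g' := g') (q := -a)
    one_pos hgM (BQ.gc_zero a w) (fun t _ => (hd t).hasDerivWithinAt) hd'.hasDerivWithinAt
  have k3 := EJ.taylor2 one_pos k1 k2
  have hid := EJ.deriv_id hG ha h1 hL h3
  rw [hg'0, EJ.second_deriv hG ha h1 hL h3 haw, hid, ← sub_eq_add_neg, BQ.gc_zero,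
    EJ.L_zero haM h1 h3, hid] at k3
  refine k3.congr fun s => ?_
  rw [sub_zero]

end KBR
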